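import Pool.Agent.Helper62.LH.StG

/-!
# Project LH (MP_087a81_gt), module CHR: smoothness, symmetry, metric compatibility
-/

set_option autoImplicit false
set_option maxSynthPendingDepth 3

open Set Filter Topology MeasureTheory
open scoped ContDiff ENNReal

noncomputable section

namespace Pool.Agent.Helper41.LH

open Helper62.LH

private lemma fd_apply_CHR {n : ℕ} {g : E n → Bl n} (hg : IsMet g) (x w u v : E n) :
    fderiv ℝ g x w u v = fderiv ℝ (fun y => g y u v) x w := by
  have h : HasFDerivAt g (fderiv ℝ g x) x :=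
    ((hg.smooth.differentiable (by simp)) x).hasFDerivAt
  obtain ⟨T, hT⟩ : ∃ T : Bl n →L[ℝ] ℝ, ∀ B : Bl n, T B = B u v :=
    ⟨(ContinuousLinearMap.apply ℝ ℝ v).comp
      (ContinuousLinearMap.apply ℝ (E n →L[ℝ] ℝ) u), fun B => rfl⟩
  have h1 : HasFDerivAt (fun y => T (g y)) (T.comp (fderiv ℝ g x)) x :=
    T.hasFDerivAt.comp x h
  have h2 : (fun y => g y u v) = fun y => T (g y) := by
    funext y
    exact (hT (g y)).symm
  rw [h2, h1.fderiv]
  exact (hT (fderiv ℝ g x w)).symm

private lemma fd_symm_CHR {n : ℕ} {g : E n → Bl n} (hg : IsMet g) (x w u v : E n) :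
    fderiv ℝ g x w u v = fderiv ℝ g x w v u := by
  rw [fd_apply_CHR hg, fd_apply_CHR hg]
  have : (fun y => g y u v) = fun y => g y v u := by
    funext y
    exact hg.symm y u v
  rw [this]

private lemma inj_CHR {n : ℕ} {g : E n → Bl n} (hg : IsMet g) (x : E n) :
    Function.Injective (g x) := by
  intro a b hab
  by_contra hne
  have h1 := hg.pos x (a - b) (sub_ne_zero.2 hne)
  have h2 : g x (a - b) = 0 := by
    rw [map_sub, hab, sub_self]
  rw [h2] at h1
  simp at h1

private lemma equiv_CHR {n : ℕ} {g : E n → Bl n} (hg : IsMet g) (x : E n) :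
    ∃ e : E n ≃L[ℝ] (E n →L[ℝ] ℝ), (e : E n →L[ℝ] (E n →L[ℝ] ℝ)) = g x := by
  have hfr : Module.finrank ℝ (E n) = Module.finrank ℝ (E n →L[ℝ] ℝ) := by
    have h1 : Module.finrank ℝ (E n →ₗ[ℝ] ℝ) = Module.finrank ℝ (E n →L[ℝ] ℝ) :=
      (LinearMap.toContinuousLinearMap (𝕜 := ℝ) (E := E n) (F' := ℝ)).finrank_eq
    rw [← h1, Module.finrank_linearMap, Module.finrank_self, mul_one]
  refine ⟨(LinearMap.linearEquivOfInjective (g x : E n →ₗ[ℝ] (E n →L[ℝ] ℝ))
    (inj_CHR hg x) hfr).toContinuousLinearEquiv, ?_⟩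
  ext u v
  rfl

theorem hChr : StChr := by
  intro n g Γ hg hΓ
  have hsymm : ∀ x u v, Γ x u v = Γ x v u := by
    intro x u v
    apply inj_CHR hg x
    ext w
    rw [hΓ, hΓ, fd_symm_CHR hg x w u v]
    ring
  refine ⟨?_, hsymm, ?_⟩
  · rw [contDiff_clm_apply_iff]
    intro u
    rw [contDiff_clm_apply_iff]
    intro v
    have hD : ContDiff ℝ ∞ (fderiv ℝ g) := hg.smooth.fderiv_right (by simp)
    obtain ⟨K, hK⟩ : ∃ K : E n → (E n →L[ℝ] ℝ), ∀ x w, K x w =
        (fderiv ℝ g x u v w + fderiv ℝ g x v u w - fderiv ℝ g x w u v) / 2 := by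
      refine ⟨fun x => (1 / 2 : ℝ) • (fderiv ℝ g x u v + fderiv ℝ g x v u -
        (((fderiv ℝ g x).flip u).flip v)), fun x w => ?_⟩
      simp only [ContinuousLinearMap.smul_apply, ContinuousLinearMap.sub_apply,
        ContinuousLinearMap.add_apply, ContinuousLinearMap.flip_apply, smul_eq_mul]
      ring
    have hKs : ContDiff ℝ ∞ K := by
      rw [contDiff_clm_apply_iff]
      intro w
      have e : (fun x => K x w) = fun x =>
          (fderiv ℝ g x u v w + fderiv ℝ g x v u w - fderiv ℝ g x w u v) / 2 := by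
        funext x
        exact hK x w
      rw [e]
      have h3 : ∀ a b c : E n, ContDiff ℝ ∞ (fun x => fderiv ℝ g x a b c) := fun a b c =>
        ((hD.clm_apply contDiff_const).clm_apply contDiff_const).clm_apply contDiff_const
      exact (((h3 u v w).add (h3 v u w)).sub (h3 w u v)).div_const 2
    have hΓK : ∀ x, Γ x u v = ContinuousLinearMap.inverse (g x) (K x) := by
      intro x
      obtain ⟨e, he⟩ := equiv_CHR hg x
      have h1 : g x (Γ x u v) = K x := by
        ext w
        rw [hΓ, hK]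
      rw [← he, ContinuousLinearMap.inverse_equiv, ← h1, ← he]
      simp
    have e2 : (fun x => Γ x u v) = fun x => ContinuousLinearMap.inverse (g x) (K x) := by
      funext x
      exact hΓK x
    rw [e2]
    have hinv : ContDiff ℝ ∞ (fun x => ContinuousLinearMap.inverse (g x)) := by
      rw [contDiff_iff_contDiffAt]
      intro x
      obtain ⟨e, he⟩ := equiv_CHR hg x
      have h1 := contDiffAt_map_inverse (𝕜 := ℝ) (n := ∞) e
      rw [he] at h1
      exact h1.comp x hg.smooth.contDiffAt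
    exact hinv.clm_apply hKs
  · intro x w u v
    rw [hg.symm x u (Γ x w v), hΓ, hΓ, fd_symm_CHR hg x w v u, fd_symm_CHR hg x v w u,
      fd_symm_CHR hg x u w v]
    ring

end Pool.Agent.Helper41.LH
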