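import Pool.Agent.Helper62.LH.StA

set_option autoImplicit false
set_option maxSynthPendingDepth 3

/-! Project LH (MP_087a81_gt), module CPT. -/

open Set Filter Topology MeasureTheory
open scoped ContDiff ENNReal

noncomputable section

namespace Pool.Agent.Helper41.LH

open Helper62.LH

theorem ip_cont {n : ℕ} (g : E n → Bl n) (x : E n) : Continuous (fun a : Dl n => ip g x a a) := by
  unfold ip trg
  fun_prop

theorem sub_seq {P : ℕ → ℕ → ℝ → Prop}
    (h : ∀ ε > 0, ∃ N, ∀ k ≥ N, ∀ l ≥ N, P k l ε) (B : ℕ → ℝ) (hB : ∀ j, 0 < B j) :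
    ∃ φ : ℕ → ℕ, (∀ j, j ≤ φ j) ∧ ∀ M i j, M ≤ i → M ≤ j → P (φ i) (φ j) (B M) := by
  choose N hN using fun j => h (B j) (hB j)
  refine ⟨fun j => j + ∑ i ∈ Finset.range (j + 1), N i, fun j => Nat.le_add_right _ _, ?_⟩
  intro M i j hi hj
  have key : ∀ i, M ≤ i → N M ≤ i + ∑ l ∈ Finset.range (i + 1), N l := by
    intro i hi
    have : N M ≤ ∑ l ∈ Finset.range (i + 1), N l :=
      Finset.single_le_sum (f := N) (fun _ _ => Nat.zero_le _)
        (Finset.mem_range.2 (by omega))
    omega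
  exact hN M _ (key i hi) _ (key j hj)

theorem hCpt (hUt : StUt) : StCpt := by
  intro n g hg w hw hwp θ hθ hC
  obtain ⟨hc1, -, -, -, hbd, -⟩ := hUt n g hg
  have hnn : ∀ x (a : Dl n), 0 ≤ ip g x a a := by
    intro x a
    obtain ⟨c, C, hc, _, h⟩ := hbd {x} isCompact_singleton
    exact (mul_nonneg hc.le (sq_nonneg _)).trans ((h x rfl).2.2.1 a).1
  have hnw : ∀ x (a : Dl n), 0 ≤ ip g x a a * w x := fun x a =>
    mul_nonneg (hnn x a) (hwp x).le
  have hqc : ∀ k l, Continuous (fun x => ip g x (θ k x - θ l x) (θ k x - θ l x) * w x) :=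
    fun k l => (hc1 _ _ ((hθ k).sub (hθ l)) ((hθ k).sub (hθ l))).mul hw
  -- local lower bounds
  have hlow : ∀ m : ℕ, ∃ c : ℝ, 0 < c ∧ ∀ x ∈ Metric.closedBall (0 : E n) m, ∀ a : Dl n,
      c * ‖a‖ ^ 2 ≤ ip g x a a * w x := by
    intro m
    have hK : IsCompact (Metric.closedBall (0 : E n) m) := isCompact_closedBall _ _
    obtain ⟨c, C, hc, _, h⟩ := hbd _ hK
    obtain ⟨y, hy, hmin⟩ := hK.exists_isMinOn
      ⟨0, Metric.mem_closedBall_self (Nat.cast_nonneg m)⟩ hw.continuousOn
    refine ⟨c * w y, mul_pos hc (hwp y), fun x hx a => ?_⟩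
    have h1 := ((h x hx).2.2.1 a).1
    have h2 : w y ≤ w x := hmin hx
    have h3 : 0 ≤ c * ‖a‖ ^ 2 := mul_nonneg hc.le (sq_nonneg _)
    calc c * w y * ‖a‖ ^ 2 = (c * ‖a‖ ^ 2) * w y := by ring
      _ ≤ (c * ‖a‖ ^ 2) * w x := mul_le_mul_of_nonneg_left h2 h3
      _ ≤ ip g x a a * w x := mul_le_mul_of_nonneg_right h1 (hwp x).le
  -- subsequence
  obtain ⟨φ, hφ, hφ2⟩ := sub_seq (P := fun k l ε =>
    Integrable (fun x => ip g x (θ k x - θ l x) (θ k x - θ l x) * w x) ∧
    ∫ x, ip g x (θ k x - θ l x) (θ k x - θ l x) * w x ≤ ε) hC (fun j => (1 / 4 : ℝ) ^ j)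
    (fun j => by positivity)
  have hsm : ∀ j, AEStronglyMeasurable (fun x => θ (φ j) x) (volume : Measure (E n)) :=
    fun j => (hθ (φ j)).aestronglyMeasurable
  -- almost everywhere convergence on balls
  have hballs : ∀ m : ℕ, ∀ᵐ x ∂(volume.restrict (Metric.closedBall (0 : E n) m)),
      ∃ l : Dl n, Tendsto (fun j => θ (φ j) x) atTop (𝓝 l) := by
    intro m
    obtain ⟨c, hc, hcl⟩ := hlow m
    refine MeasureTheory.Lp.ae_tendsto_of_cauchy_eLpNorm (p := 2)
      (B := fun M => ENNReal.ofReal (2 / √c * (1 / 2 : ℝ) ^ M))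
      (fun j => (hsm j).restrict) (by norm_num) ?_ ?_
    · rw [← ENNReal.ofReal_tsum_of_nonneg]
      · exact ENNReal.ofReal_ne_top
      · intro M; positivity
      · exact (summable_geometric_of_lt_one (by norm_num) (by norm_num)).mul_left _
    · intro M i j hi hj
      obtain ⟨hint, hle⟩ := hφ2 M i j hi hj
      have h1 : ∫⁻ x in Metric.closedBall (0 : E n) m, ‖θ (φ i) x - θ (φ j) x‖ₑ ^ (2 : ℝ) ≤
          ENNReal.ofReal (1 / c * (1 / 4 : ℝ) ^ M) := by
        have h2 : ∀ x ∈ Metric.closedBall (0 : E n) m, ‖θ (φ i) x - θ (φ j) x‖ₑ ^ (2 : ℝ) ≤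
            ENNReal.ofReal (1 / c * (ip g x (θ (φ i) x - θ (φ j) x) (θ (φ i) x - θ (φ j) x) *
              w x)) := by
          intro x hx
          have h3 := hcl x hx (θ (φ i) x - θ (φ j) x)
          rw [← ofReal_norm_eq_enorm, ENNReal.ofReal_rpow_of_nonneg (norm_nonneg _) (by norm_num)]
          refine ENNReal.ofReal_le_ofReal ?_
          rw [Real.rpow_two, one_div, ← div_eq_inv_mul, le_div_iff₀ hc]
          linarith
        calc ∫⁻ x in Metric.closedBall (0 : E n) m, ‖θ (φ i) x - θ (φ j) x‖ₑ ^ (2 : ℝ)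
            ≤ ∫⁻ x in Metric.closedBall (0 : E n) m, ENNReal.ofReal (1 / c *
              (ip g x (θ (φ i) x - θ (φ j) x) (θ (φ i) x - θ (φ j) x) * w x)) :=
              setLIntegral_mono' measurableSet_closedBall h2
          _ ≤ ∫⁻ x, ENNReal.ofReal (1 / c *
              (ip g x (θ (φ i) x - θ (φ j) x) (θ (φ i) x - θ (φ j) x) * w x)) :=
              setLIntegral_le_lintegral _ _
          _ = ENNReal.ofReal (∫ x, 1 / c *
              (ip g x (θ (φ i) x - θ (φ j) x) (θ (φ i) x - θ (φ j) x) * w x)) := by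
              rw [ofReal_integral_eq_lintegral_ofReal (hint.const_mul _)]
              exact Eventually.of_forall fun x =>
                mul_nonneg (by positivity) (hnw x _)
          _ ≤ ENNReal.ofReal (1 / c * (1 / 4 : ℝ) ^ M) := by
              refine ENNReal.ofReal_le_ofReal ?_
              rw [integral_const_mul]
              exact mul_le_mul_of_nonneg_left hle (by positivity)
      have h4 : eLpNorm ((fun x => θ (φ i) x) - fun x => θ (φ j) x) 2
          (volume.restrict (Metric.closedBall (0 : E n) m)) ≤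
          ENNReal.ofReal (1 / √c * (1 / 2 : ℝ) ^ M) := by
        rw [eLpNorm_eq_lintegral_rpow_enorm_toReal (by norm_num) (by norm_num)]
        have h5 : ENNReal.ofReal (1 / √c * (1 / 2 : ℝ) ^ M) =
            (ENNReal.ofReal (1 / c * (1 / 4 : ℝ) ^ M)) ^ (1 / (2 : ℝ)) := by
          rw [ENNReal.ofReal_rpow_of_nonneg (by positivity) (by norm_num)]
          congr 1
          rw [← Real.sqrt_eq_rpow, Real.sqrt_mul (by positivity), Real.sqrt_div (by norm_num),
            Real.sqrt_one]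
          congr 1
          rw [show (1 / 4 : ℝ) ^ M = ((1 / 2 : ℝ) ^ M) ^ 2 by
            rw [← pow_mul, mul_comm M 2, pow_mul]; norm_num]
          rw [Real.sqrt_sq (by positivity)]
        rw [h5]
        simp only [ENNReal.toReal_ofNat]
        exact ENNReal.rpow_le_rpow h1 (by norm_num)
      refine h4.trans_lt ?_
      rw [ENNReal.ofReal_lt_ofReal_iff (by positivity)]
      have h6 : 0 < √c := Real.sqrt_pos.2 hc
      have h7 : (0 : ℝ) < (1 / 2 : ℝ) ^ M := by positivity
      have h8 : 1 / √c < 2 / √c := by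
        rw [div_lt_div_iff_of_pos_right h6]; norm_num
      exact mul_lt_mul_of_pos_right h8 h7
  have hae : ∀ᵐ x ∂(volume : Measure (E n)),
      ∃ l : Dl n, Tendsto (fun j => θ (φ j) x) atTop (𝓝 l) := by
    have h1 : ∀ m : ℕ, ∀ᵐ x ∂(volume : Measure (E n)),
        x ∈ Metric.closedBall (0 : E n) m → ∃ l : Dl n, Tendsto (fun j => θ (φ j) x) atTop (𝓝 l) :=
      fun m => (ae_restrict_iff' measurableSet_closedBall).1 (hballs m)
    filter_upwards [ae_all_iff.2 h1] with x hx
    obtain ⟨m, hm⟩ := exists_nat_ge ‖x‖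
    exact hx m (by rw [mem_closedBall_zero_iff]; exact hm)
  obtain ⟨θ', hm, hlim⟩ := exists_stronglyMeasurable_limit_of_tendsto_ae hsm hae
  refine ⟨θ', hm.aestronglyMeasurable, ?_⟩
  intro ε hε
  obtain ⟨N, hN⟩ := hC ε hε
  refine ⟨N, fun k hk => ?_⟩
  have hlimq : ∀ᵐ x ∂(volume : Measure (E n)), Tendsto (fun j =>
      ip g x (θ k x - θ (φ j) x) (θ k x - θ (φ j) x) * w x) atTop
      (𝓝 (ip g x (θ k x - θ' x) (θ k x - θ' x) * w x)) := by
    filter_upwards [hlim] with x hx
    exact (((ip_cont g x).tendsto _).comp (tendsto_const_nhds.sub hx)).mul_const _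
  have hmeas : AEStronglyMeasurable (fun x => ip g x (θ k x - θ' x) (θ k x - θ' x) * w x)
      (volume : Measure (E n)) :=
    aestronglyMeasurable_of_tendsto_ae atTop (fun j => (hqc k (φ j)).aestronglyMeasurable) hlimq
  have hlint : ∫⁻ x, ENNReal.ofReal (ip g x (θ k x - θ' x) (θ k x - θ' x) * w x) ≤
      ENNReal.ofReal ε := by
    have h1 : ∫⁻ x, ENNReal.ofReal (ip g x (θ k x - θ' x) (θ k x - θ' x) * w x) =
        ∫⁻ x, liminf (fun j => ENNReal.ofReal
          (ip g x (θ k x - θ (φ j) x) (θ k x - θ (φ j) x) * w x)) atTop := by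
      refine lintegral_congr_ae ?_
      filter_upwards [hlimq] with x hx
      exact ((ENNReal.continuous_ofReal.tendsto _).comp hx).liminf_eq.symm
    rw [h1]
    refine (lintegral_liminf_le fun j =>
      ENNReal.measurable_ofReal.comp (hqc k (φ j)).measurable).trans ?_
    refine liminf_le_of_frequently_le' (Eventually.frequently ?_)
    filter_upwards [eventually_ge_atTop N] with j hj
    obtain ⟨hint, hle⟩ := hN k hk (φ j) (hj.trans (hφ j))
    simp only [Function.comp_apply]
    rw [← ofReal_integral_eq_lintegral_ofReal hint (Eventually.of_forall fun x => hnw x _)]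
    exact ENNReal.ofReal_le_ofReal hle
  have hint : Integrable (fun x => ip g x (θ k x - θ' x) (θ k x - θ' x) * w x) := by
    refine ⟨hmeas, ?_⟩
    rw [hasFiniteIntegral_iff_ofReal (Eventually.of_forall fun x => hnw x _)]
    exact hlint.trans_lt ENNReal.ofReal_lt_top
  refine ⟨hint, ?_⟩
  rw [← ofReal_integral_eq_lintegral_ofReal hint (Eventually.of_forall fun x => hnw x _)] at hlint
  exact (ENNReal.ofReal_le_ofReal_iff hε.le).1 hlint

end Pool.Agent.Helper41.LH
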