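import Pool.Agent.Helper62.LH.StA

set_option autoImplicit false
set_option maxSynthPendingDepth 3

/-! Project LH (MP_087a81_gt), module FR. -/

open Set Filter Topology MeasureTheory
open scoped ContDiff ENNReal

noncomputable section

namespace Pool.Agent.Helper41.LH

open Helper62.LH

private lemma ee_sum_FR {n : ℕ} (v : E n) : ∑ i, v i • (ee i : E n) = v := by
  ext j
  rw [WithLp.ofLp_sum, Finset.sum_apply, Finset.sum_eq_single j]
  · simp [ee]
  · intro i _ hij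
    simp [ee, Ne.symm hij]
  · intro h
    exact absurd (Finset.mem_univ _) h

private lemma nsq_FR {n : ℕ} (a : Dl n) : ‖a‖ ^ 2 ≤ ∑ j, a (ee j) ^ 2 := by
  have h0 : 0 ≤ ∑ j, a (ee j) ^ 2 := Finset.sum_nonneg fun _ _ => sq_nonneg _
  have h1 : ‖a‖ ≤ √(∑ j, a (ee j) ^ 2) := by
    refine ContinuousLinearMap.opNorm_le_bound a (Real.sqrt_nonneg _) fun v => ?_
    have h2 : a v = ∑ j, v j * a (ee j) := by
      conv_lhs => rw [← ee_sum_FR v]
      rw [map_sum]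
      simp only [map_smul, smul_eq_mul]
    have h3 : (∑ j, v j * a (ee j)) ^ 2 ≤ (∑ j, v j ^ 2) * ∑ j, a (ee j) ^ 2 :=
      Finset.sum_mul_sq_le_sq_mul_sq _ _ _
    have h4 : ‖v‖ ^ 2 = ∑ j, v j ^ 2 := EuclideanSpace.real_norm_sq_eq v
    rw [Real.norm_eq_abs]
    refine abs_le_of_sq_le_sq ?_ (mul_nonneg (Real.sqrt_nonneg _) (norm_nonneg _))
    rw [mul_pow, Real.sq_sqrt h0, h4, h2]
    linarith
  calc ‖a‖ ^ 2 ≤ √(∑ j, a (ee j) ^ 2) ^ 2 := by gcongr
    _ = ∑ j, a (ee j) ^ 2 := Real.sq_sqrt h0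

private lemma mf_FR {n : ℕ} (ρ : E n → ℝ) (ε : ℝ) (θ : E n → Dl n) (x : E n) (j : Fin n) :
    mf ρ ε θ x (ee j) = mo ρ ε (fun y => θ y (ee j)) x := by
  unfold mf
  rw [ContinuousLinearMap.sum_apply, Finset.sum_eq_single j]
  · simp [ee]
  · intro i _ hij
    simp [ee, hij]
  · intro h
    exact absurd (Finset.mem_univ _) h

theorem hFr (hUt : StUt) (hSma : StSma) (hMoc : StMoc) (hFra : StFra) (hFrb : StFrb) : StFr := by
  intro n g Γ hg hΓ f hf P θ hP hθ hW hco K hK κ hκ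
  obtain ⟨ρ, hρ⟩ := (hSma n).1
  obtain ⟨-, -, hvc, hvp, hbd, -⟩ := hUt n g hg
  obtain ⟨c, C, hc, hC, hKb⟩ := hbd K hK
  have h1 := hFra n g Γ hg hΓ ρ hρ P θ hP hθ hW K hK κ hκ
  have h2 := hFrb n g Γ hg hΓ ρ hρ f hf θ hθ hco K hK
  have h3 : ∀ j : Fin n, Tendsto (fun ε : ℝ => ∫ x in K,
      (mo ρ ε (fun y => θ y (ee j)) x - θ x (ee j)) ^ 2) (𝓝[>] 0) (𝓝 0) :=
    fun j => hMoc n ρ hρ _ (hθ j) K hK
  have h4 : Tendsto (fun ε : ℝ => C ^ 2 * ∑ j, ∫ x in K,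
      (mo ρ ε (fun y => θ y (ee j)) x - θ x (ee j)) ^ 2) (𝓝[>] 0) (𝓝 0) := by
    have h := (tendsto_finset_sum Finset.univ fun j _ => h3 j).const_mul (C ^ 2)
    simpa using h
  have h5 := h2.eventually_le_const hκ
  have h6 := h4.eventually_le_const hκ
  obtain ⟨ε, ⟨hsm, hnb⟩, hdl, hsum⟩ := (h1.and (h5.and h6)).exists
  refine ⟨mf ρ ε θ, hsm, ?_, hnb, hdl⟩
  refine le_trans ?_ hsum
  have hint : ∀ j, IntegrableOn (fun x =>
      (mo ρ ε (fun y => θ y (ee j)) x - θ x (ee j)) ^ 2) K := by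
    intro j
    have hmo : Continuous (mo ρ ε (fun y => θ y (ee j))) := by
      have h7 : Continuous (fun x => mf ρ ε θ x (ee j)) :=
        hsm.continuous.clm_apply continuous_const
      refine h7.congr fun x => mf_FR ρ ε θ x j
    have h8 : MemLp (fun x => θ x (ee j)) 2 (volume.restrict K) :=
      (memLp_two_iff_integrable_sq (hθ j).1.restrict).2 ((hθ j).2 K hK)
    have h9 : MemLp (mo ρ ε (fun y => θ y (ee j))) 2 (volume.restrict K) :=
      (memLp_two_iff_integrable_sq hmo.aestronglyMeasurable.restrict).2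
        ((hmo.pow 2).continuousOn.integrableOn_compact hK)
    exact (h9.sub h8).integrable_sq
  have hge : 0 ≤ᵐ[volume.restrict K] fun x =>
      ip g x (mf ρ ε θ x - θ x) (mf ρ ε θ x - θ x) * vol g x := by
    refine (ae_restrict_iff' hK.measurableSet).2 (Eventually.of_forall fun x hx => ?_)
    exact mul_nonneg ((mul_nonneg hc.le (sq_nonneg _)).trans ((hKb x hx).2.2.1 _).1) (hvp x).le
  have hle : (fun x => ip g x (mf ρ ε θ x - θ x) (mf ρ ε θ x - θ x) * vol g x)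
      ≤ᵐ[volume.restrict K] fun x =>
        C ^ 2 * ∑ j, (mo ρ ε (fun y => θ y (ee j)) x - θ x (ee j)) ^ 2 := by
    refine (ae_restrict_iff' hK.measurableSet).2 (Eventually.of_forall fun x hx => ?_)
    have hb := ((hKb x hx).2.2.1 (mf ρ ε θ x - θ x)).2
    have hv := (hKb x hx).2.1
    have hn := nsq_FR (mf ρ ε θ x - θ x)
    have hs : ∑ j, (mf ρ ε θ x - θ x) (ee j) ^ 2 =
        ∑ j, (mo ρ ε (fun y => θ y (ee j)) x - θ x (ee j)) ^ 2 := by
      refine Finset.sum_congr rfl fun j _ => ?_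
      rw [ContinuousLinearMap.sub_apply, mf_FR]
    rw [hs] at hn
    have h0 : 0 ≤ ∑ j, (mo ρ ε (fun y => θ y (ee j)) x - θ x (ee j)) ^ 2 :=
      Finset.sum_nonneg fun _ _ => sq_nonneg _
    calc ip g x (mf ρ ε θ x - θ x) (mf ρ ε θ x - θ x) * vol g x
        ≤ (C * ‖mf ρ ε θ x - θ x‖ ^ 2) * C :=
          mul_le_mul hb hv (hvp x).le (mul_nonneg hC.le (sq_nonneg _))
      _ ≤ (C * ∑ j, (mo ρ ε (fun y => θ y (ee j)) x - θ x (ee j)) ^ 2) * C := by gcongr
      _ = C ^ 2 * ∑ j, (mo ρ ε (fun y => θ y (ee j)) x - θ x (ee j)) ^ 2 := by ring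
  have hI : IntegrableOn (fun x =>
      C ^ 2 * ∑ j, (mo ρ ε (fun y => θ y (ee j)) x - θ x (ee j)) ^ 2) K :=
    (integrable_finset_sum _ fun j _ => hint j).const_mul _
  refine (integral_mono_of_nonneg hge hI hle).trans (le_of_eq ?_)
  rw [integral_const_mul, integral_finset_sum _ fun j _ => hint j]

end Pool.Agent.Helper41.LH
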