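import Pool.Agent.Helper62.LH.StA

set_option autoImplicit false
set_option maxSynthPendingDepth 3

/-! Project LH (MP_087a81_gt), module MT. -/

open Set Filter Topology MeasureTheory
open scoped ContDiff ENNReal

noncomputable section

namespace Pool.Agent.Helper41.LH

open Helper62.LH

theorem sphere_compact (m : ℕ) : IsCompact {c : Fin m → ℝ | ∑ i, c i ^ 2 = 1} := by
  refine IsCompact.of_isClosed_subset (isCompact_closedBall (0 : Fin m → ℝ) 1)
    (isClosed_eq (by fun_prop) continuous_const) ?_
  intro c hc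
  rw [mem_closedBall_zero_iff, pi_norm_le_iff_of_nonneg zero_le_one]
  intro i
  have h1 : c i ^ 2 ≤ ∑ i, c i ^ 2 :=
    Finset.single_le_sum (f := fun i => c i ^ 2) (fun _ _ => sq_nonneg _) (Finset.mem_univ i)
  rw [mem_setOf_eq] at hc
  rw [hc] at h1
  rw [Real.norm_eq_abs]
  exact (sq_le_one_iff_abs_le_one _).1 h1

theorem hMt (hUt : StUt) (hInb : StInb) (hOnb : StOnb) (hTr : StTr) (hKey : StKey) : StMt := by
  intro n g Γ hn hg hΓ hcpl hsec P hP
  obtain ⟨-, hc2, hvc, hvp, -, -⟩ := hUt n g hg
  have hBca : ∀ (c : Fin (n + 1) → ℝ) x, (fun u v => ∑ i, c i * P i x u v) =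
      fun u v => (∑ i, c i • P i x) u v := by
    intro c x
    funext u v
    simp
  have hBcc : ∀ c : Fin (n + 1) → ℝ, Continuous (fun x => ∑ i, c i • P i x) := fun c =>
    continuous_finset_sum _ fun i _ => ((hP i).smooth.continuous).const_smul (c i)
  have hqc : ∀ c : Fin (n + 1) → ℝ,
      Continuous (fun x => nB g x (fun u v => ∑ i, c i * P i x u v) * vol g x) := by
    intro c
    refine Continuous.mul ?_ hvc
    have h1 := hc2 _ _ (hBcc c) (hBcc c)
    refine h1.congr fun x => ?_
    rw [hBca c x]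
    rfl
  have hq0 : ∀ (c : Fin (n + 1) → ℝ) x,
      0 ≤ nB g x (fun u v => ∑ i, c i * P i x u v) * vol g x := by
    intro c x
    refine mul_nonneg ?_ (hvp x).le
    rw [hBca c x]
    exact (hInb n g hg x).1 _
  have hqcc : ∀ x, Continuous (fun c : Fin (n + 1) → ℝ =>
      nB g x (fun u v => ∑ i, c i * P i x u v) * vol g x) := by
    intro x
    unfold nB trg
    fun_prop
  choose c hc1 hc3 using fun m : ℕ => hKey n g Γ hn hg hΓ hcpl hsec P hP
    (Metric.closedBall 0 m) (isCompact_closedBall _ _) (1 / ((m : ℝ) + 1)) (by positivity)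
  obtain ⟨a, ha, φ, hφ, hlim⟩ := (sphere_compact (n + 1)).tendsto_subseq hc1
  refine ⟨a, ha, ?_⟩
  have hball : ∀ M : ℕ, ∀ᵐ x ∂(volume.restrict (Metric.closedBall (0 : E n) M)),
      nB g x (fun u v => ∑ i, a i * P i x u v) * vol g x = 0 := by
    intro M
    have h1 : ∫⁻ x in Metric.closedBall (0 : E n) M,
        ENNReal.ofReal (nB g x (fun u v => ∑ i, a i * P i x u v) * vol g x) ≤ 0 := by
      have h2 : ∫⁻ x in Metric.closedBall (0 : E n) M,
          ENNReal.ofReal (nB g x (fun u v => ∑ i, a i * P i x u v) * vol g x) =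
          ∫⁻ x in Metric.closedBall (0 : E n) M, liminf (fun m => ENNReal.ofReal
            (nB g x (fun u v => ∑ i, c (φ m) i * P i x u v) * vol g x)) atTop := by
        refine lintegral_congr fun x => ?_
        exact ((ENNReal.continuous_ofReal.tendsto _).comp
          (((hqcc x).tendsto a).comp hlim)).liminf_eq.symm
      rw [h2]
      refine (lintegral_liminf_le fun m =>
        ENNReal.measurable_ofReal.comp (hqc (c (φ m))).measurable).trans ?_
      have h3 : Tendsto (fun m => ENNReal.ofReal (1 / ((φ m : ℝ) + 1))) atTop (𝓝 0) := by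
        have h4 : Tendsto (fun m => 1 / ((φ m : ℝ) + 1)) atTop (𝓝 0) :=
          tendsto_one_div_add_atTop_nhds_zero_nat.comp hφ.tendsto_atTop
        have h5 := (ENNReal.continuous_ofReal.tendsto (0 : ℝ)).comp h4
        rw [ENNReal.ofReal_zero] at h5
        exact h5
      rw [← h3.liminf_eq]
      refine liminf_le_liminf ?_
      filter_upwards [eventually_ge_atTop M] with m hm
      have hM : M ≤ φ m := hm.trans (hφ.id_le m)
      have hi : IntegrableOn (fun x => nB g x (fun u v => ∑ i, c (φ m) i * P i x u v) * vol g x)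
          (Metric.closedBall (0 : E n) (φ m)) :=
        (hqc _).continuousOn.integrableOn_compact (isCompact_closedBall _ _)
      calc ∫⁻ x in Metric.closedBall (0 : E n) M, (ENNReal.ofReal ∘ fun x =>
            nB g x (fun u v => ∑ i, c (φ m) i * P i x u v) * vol g x) x
          ≤ ∫⁻ x in Metric.closedBall (0 : E n) (φ m), ENNReal.ofReal
            (nB g x (fun u v => ∑ i, c (φ m) i * P i x u v) * vol g x) :=
            lintegral_mono_set (Metric.closedBall_subset_closedBall (by exact_mod_cast hM))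
        _ = ENNReal.ofReal (∫ x in Metric.closedBall (0 : E n) (φ m),
            nB g x (fun u v => ∑ i, c (φ m) i * P i x u v) * vol g x) := by
            rw [ofReal_integral_eq_lintegral_ofReal hi (Eventually.of_forall fun x => hq0 _ x)]
        _ ≤ ENNReal.ofReal (1 / ((φ m : ℝ) + 1)) := ENNReal.ofReal_le_ofReal (hc3 (φ m))
    have h6 := le_antisymm h1 zero_le
    have h8 : Measurable (fun x => ENNReal.ofReal
        (nB g x (fun u v => ∑ i, a i * P i x u v) * vol g x)) :=
      ENNReal.measurable_ofReal.comp (hqc a).measurable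
    rw [lintegral_eq_zero_iff h8] at h6
    filter_upwards [h6] with x hx
    have h7 : nB g x (fun u v => ∑ i, a i * P i x u v) * vol g x ≤ 0 :=
      ENNReal.ofReal_eq_zero.1 hx
    exact le_antisymm h7 (hq0 a x)
  have hall : (fun x => nB g x (fun u v => ∑ i, a i * P i x u v) * vol g x) = fun _ => 0 := by
    rw [← (hqc a).ae_eq_iff_eq (μ := (volume : Measure (E n))) continuous_const]
    have h1 : ∀ M : ℕ, ∀ᵐ x ∂(volume : Measure (E n)), x ∈ Metric.closedBall (0 : E n) M →
        nB g x (fun u v => ∑ i, a i * P i x u v) * vol g x = 0 :=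
      fun M => (ae_restrict_iff' measurableSet_closedBall).1 (hball M)
    filter_upwards [ae_all_iff.2 h1] with x hx
    obtain ⟨m, hm⟩ := exists_nat_ge ‖x‖
    exact hx m (by rw [mem_closedBall_zero_iff]; exact hm)
  intro x u v
  have h1 : nB g x (fun u v => ∑ i, a i * P i x u v) = 0 := by
    have h2 := congrFun hall x
    exact (mul_eq_zero.1 h2).resolve_right (hvp x).ne'
  obtain ⟨f, hf⟩ := hOnb n g hg x
  rw [hBca a x, (hTr n g hg x f hf).2.2.2.1] at h1
  have h3 : ∀ i j, (∑ i, a i • P i x) (f i) (f j) = 0 := by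
    intro i j
    have h4 := (Finset.sum_eq_zero_iff_of_nonneg (fun i _ =>
      Finset.sum_nonneg fun j _ => sq_nonneg _)).1 h1 i (Finset.mem_univ i)
    have h5 := (Finset.sum_eq_zero_iff_of_nonneg (fun j _ => sq_nonneg _)).1 h4 j
      (Finset.mem_univ j)
    exact pow_eq_zero_iff (two_ne_zero) |>.1 h5
  have h6 : ∑ i, a i * P i x u v = (∑ i, a i • P i x) u v := congrFun (congrFun (hBca a x) u) v
  rw [h6]
  generalize (∑ i, a i • P i x) = B at h3
  rw [← hf.expd u, ← hf.expd v]
  simp only [map_sum, map_smul, ContinuousLinearMap.sum_apply, ContinuousLinearMap.smul_apply, h3,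
    smul_zero, Finset.sum_const_zero]

end Pool.Agent.Helper41.LH
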