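import Pool.Agent.Helper62.LH.StG

/-!
# Project LH (MP_087a81_gt), module SMA: mollifiers and mollification with variable radius
-/

set_option autoImplicit false
set_option maxSynthPendingDepth 3

open Set Filter Topology MeasureTheory
open scoped ContDiff ENNReal Convolution

noncomputable section

namespace Pool.Agent.Helper41.LH

open Helper62.LH

private lemma exists_mol_SMA (n : ℕ) : ∃ ρ : E n → ℝ, Mol ρ := by
  let f : ContDiffBump (0 : E n) := ⟨1 / 2, 1, by norm_num, by norm_num⟩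
  refine ⟨f.normed volume, f.contDiff_normed, f.nonneg_normed, ?_, f.integral_normed⟩
  intro x hx
  by_contra hne
  have h1 : x ∈ Function.support (f.normed volume) := hne
  rw [f.support_normed_eq, mem_ball_zero_iff] at h1
  have h2 : f.rOut = 1 := rfl
  rw [h2] at h1
  linarith

/-- the rescaled mollifier -/
private def gp_SMA {n : ℕ} (ρ : E n → ℝ) (δ : E n → ℝ) (x z : E n) : ℝ :=
  ((δ x)⁻¹) ^ n * ρ ((δ x)⁻¹ • z)

private lemma conv_SMA {n : ℕ} (ρ b δ : E n → ℝ) (hδ : ∀ x, 0 < δ x) (x : E n) :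
    sm ρ b δ x = (b ⋆[ContinuousLinearMap.mul ℝ ℝ, volume] gp_SMA ρ δ x) x := by
  rw [MeasureTheory.convolution_def]
  simp only [ContinuousLinearMap.mul_apply']
  have h1 : (∫ t, b t * gp_SMA ρ δ x (x - t)) = ∫ t, b (x - t) * gp_SMA ρ δ x t := by
    rw [← integral_sub_left_eq_self (fun t => b t * gp_SMA ρ δ x (x - t)) volume x]
    simp only [sub_sub_cancel]
  rw [h1]
  have hp := hδ x
  have h2 := Measure.integral_comp_smul_of_nonneg (volume : Measure (E n))
    (fun t => b (x - t) * gp_SMA ρ δ x t) (δ x) (hR := hp.le)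
  rw [finrank_euclideanSpace_fin, smul_eq_mul] at h2
  have h3 : (∫ t, b (x - δ x • t) * gp_SMA ρ δ x (δ x • t)) =
      ((δ x) ^ n)⁻¹ * sm ρ b δ x := by
    unfold sm
    rw [← integral_const_mul]
    congr 1
    funext t
    unfold gp_SMA
    rw [smul_smul, inv_mul_cancel₀ hp.ne', one_smul, inv_pow]
    ring
  rw [h3] at h2
  have h4 : ((δ x) ^ n)⁻¹ ≠ 0 := inv_ne_zero (pow_ne_zero _ hp.ne')
  exact mul_left_cancel₀ h4 h2

theorem hSma : StSma := by
  intro n
  refine ⟨exists_mol_SMA n, ?_⟩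
  intro ρ hρ b δ hb hδs hδ
  rw [contDiff_iff_contDiffAt]
  intro x₀
  have hso : IsOpen {x : E n | δ x < δ x₀ + 1} := isOpen_lt hδs.continuous continuous_const
  have hgs : ∀ p : E n, ∀ z : E n, p ∈ {x : E n | δ x < δ x₀ + 1} →
      z ∉ Metric.closedBall (0 : E n) (δ x₀ + 1) → gp_SMA ρ δ p z = 0 := by
    intro p z hp hz
    unfold gp_SMA
    have hpp := hδ p
    rw [mem_closedBall_zero_iff, not_le] at hz
    have h1 : 1 < ‖(δ p)⁻¹ • z‖ := by
      rw [norm_smul, norm_inv, Real.norm_eq_abs, abs_of_pos hpp, ← div_eq_inv_mul,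
        one_lt_div hpp]
      exact lt_trans hp hz
    rw [hρ.supp _ h1, mul_zero]
  have hg : ContDiff ℝ ∞ (fun q : E n × E n => gp_SMA ρ δ q.1 q.2) := by
    unfold gp_SMA
    have h1 : ContDiff ℝ ∞ (fun q : E n × E n => (δ q.1)⁻¹) :=
      (hδs.comp contDiff_fst).inv (fun q => (hδ q.1).ne')
    exact (h1.pow n).mul (hρ.smooth.comp (h1.smul contDiff_snd))
  have hmain := contDiffOn_convolution_right_with_param_comp (μ := (volume : Measure (E n)))
    (𝕜 := ℝ) (n := (⊤ : ℕ∞)) (ContinuousLinearMap.mul ℝ ℝ) (s := {x : E n | δ x < δ x₀ + 1})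
    (v := fun x : E n => x) contDiffOn_id (f := b) (g := gp_SMA ρ δ) hso
    (isCompact_closedBall (0 : E n) (δ x₀ + 1)) hgs hb.locallyIntegrable hg.contDiffOn
  have heq : sm ρ b δ = fun x => (b ⋆[ContinuousLinearMap.mul ℝ ℝ, volume] gp_SMA ρ δ x) x := by
    funext x
    exact conv_SMA ρ b δ hδ x
  rw [heq]
  refine hmain.contDiffAt (hso.mem_nhds ?_)
  show δ x₀ < δ x₀ + 1
  linarith

end Pool.Agent.Helper41.LH
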