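import Pool.Agent.Helper62.LH.StV

/-!
# Project LH (MP_087a81_gt), module TR: traces and norms in an orthonormal basis
-/

set_option autoImplicit false
set_option maxSynthPendingDepth 3

open Set Filter Topology MeasureTheory
open scoped ContDiff ENNReal

noncomputable section

namespace Pool.Agent.Helper41.LH

open Helper62.LH

private lemma ee_sum_TR {n : ℕ} (v : E n) : ∑ i, v i • (ee i : E n) = v := by
  ext j
  rw [WithLp.ofLp_sum, Finset.sum_apply, Finset.sum_eq_single j]
  · simp [ee]
  · intro i _ hij
    simp [ee, Ne.symm hij]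
  · intro h
    exact absurd (Finset.mem_univ _) h

private lemma tr_TR {n : ℕ} {g : E n → Bl n} {x : E n} {f : Fin n → E n} (hf : Onb g x f)
    (B : E n →ₗ[ℝ] E n →ₗ[ℝ] ℝ) : trg g x (fun u v => B u v) = ∑ a, B (f a) (f a) := by
  have h1 : ∀ a, B (f a) (f a) = ∑ i, ∑ j, f a i * f a j * B (ee i) (ee j) := by
    intro a
    have e : f a = ∑ i, f a i • (ee i : E n) := (ee_sum_TR (f a)).symm
    calc B (f a) (f a) = B (∑ i, f a i • (ee i : E n)) (∑ j, f a j • (ee j : E n)) := by
          rw [← e]
      _ = ∑ i, ∑ j, f a i * f a j * B (ee i) (ee j) := by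
          rw [map_sum B, LinearMap.sum_apply]
          refine Finset.sum_congr rfl fun i _ => ?_
          rw [map_sum]
          refine Finset.sum_congr rfl fun j _ => ?_
          rw [map_smul, map_smul, LinearMap.smul_apply, smul_eq_mul, smul_eq_mul]
          ring
  unfold trg
  simp only [h1]
  rw [Finset.sum_comm]
  have h2 : ∀ j i, gi g x i j * B (ee i) (ee j) = ∑ a, f a i * f a j * B (ee i) (ee j) := by
    intro j i
    rw [hf.inv, Finset.sum_mul]
  simp only [h2]
  rw [Finset.sum_comm]
  calc ∑ i, ∑ j, ∑ a, f a i * f a j * B (ee i) (ee j)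
      = ∑ i, ∑ a, ∑ j, f a i * f a j * B (ee i) (ee j) :=
        Finset.sum_congr rfl fun i _ => Finset.sum_comm
    _ = ∑ a, ∑ i, ∑ j, f a i * f a j * B (ee i) (ee j) := Finset.sum_comm

private lemma tr2_TR {n : ℕ} {g : E n → Bl n} {x : E n} {f : Fin n → E n} (hf : Onb g x f)
    (F : E n → E n → ℝ) (h1 : ∀ u u' v, F (u + u') v = F u v + F u' v)
    (h2 : ∀ (c : ℝ) u v, F (c • u) v = c * F u v)
    (h3 : ∀ u v v', F u (v + v') = F u v + F u v')
    (h4 : ∀ (c : ℝ) u v, F u (c • v) = c * F u v) :
    trg g x F = ∑ a, F (f a) (f a) :=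
  tr_TR hf (LinearMap.mk₂ ℝ F h1 h2 h3 h4)

private lemma iB_TR {n : ℕ} {g : E n → Bl n} {x : E n} {f : Fin n → E n} (hf : Onb g x f)
    (B C : Bl n) : iB g x (fun u v => B u v) (fun u v => C u v) =
      ∑ i, ∑ j, B (f i) (f j) * C (f i) (f j) := by
  unfold iB
  have h1 : ∀ u u' : E n, trg g x (fun v v' => B u v * C u' v') =
      ∑ a, B u (f a) * C u' (f a) := by
    intro u u'
    refine tr2_TR hf _ ?_ ?_ ?_ ?_
    · intro a b c
      rw [map_add]
      ring
    · intro c a b
      rw [map_smul, smul_eq_mul]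
      ring
    · intro a b c
      rw [map_add]
      ring
    · intro c a b
      rw [map_smul, smul_eq_mul]
      ring
  simp only [h1]
  refine tr2_TR hf _ ?_ ?_ ?_ ?_
  · intro a b c
    rw [← Finset.sum_add_distrib]
    refine Finset.sum_congr rfl fun i _ => ?_
    rw [map_add, ContinuousLinearMap.add_apply]
    ring
  · intro c a b
    rw [Finset.mul_sum]
    refine Finset.sum_congr rfl fun i _ => ?_
    rw [map_smul, ContinuousLinearMap.smul_apply, smul_eq_mul]
    ring
  · intro a b c
    rw [← Finset.sum_add_distrib]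
    refine Finset.sum_congr rfl fun i _ => ?_
    rw [map_add, ContinuousLinearMap.add_apply]
    ring
  · intro c a b
    rw [Finset.mul_sum]
    refine Finset.sum_congr rfl fun i _ => ?_
    rw [map_smul, ContinuousLinearMap.smul_apply, smul_eq_mul]
    ring

theorem hTr : StTr := by
  intro n g _ x f hf
  refine ⟨?_, ?_, iB_TR hf, ?_, ?_⟩
  · intro B
    refine tr2_TR hf _ ?_ ?_ ?_ ?_
    · intro a b c
      rw [map_add, ContinuousLinearMap.add_apply]
    · intro c a b
      rw [map_smul, ContinuousLinearMap.smul_apply, smul_eq_mul]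
    · intro a b c
      rw [map_add]
    · intro c a b
      rw [map_smul, smul_eq_mul]
  · intro a b
    unfold ip
    refine tr2_TR hf _ ?_ ?_ ?_ ?_
    · intro u v w
      rw [map_add]
      ring
    · intro c u v
      rw [map_smul, smul_eq_mul]
      ring
    · intro u v w
      rw [map_add]
      ring
    · intro c u v
      rw [map_smul, smul_eq_mul]
      ring
  · intro B
    have h := iB_TR hf B B
    have h2 : nB g x (fun u v => B u v) = iB g x (fun u v => B u v) (fun u v => B u v) := rfl
    rw [h2, h]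
    exact Finset.sum_congr rfl fun i _ => Finset.sum_congr rfl fun j _ => by ring
  · intro L
    have h1 : ∀ i, (L (ee i)) i = ∑ a, g x (L (ee i)) (f a) * f a i := by
      intro i
      have h2 := congrArg (fun v : E n => v i) (hf.expd (L (ee i)))
      simp only at h2
      rw [← h2, WithLp.ofLp_sum, Finset.sum_apply]
      rfl
    simp only [h1]
    rw [Finset.sum_comm]
    refine Finset.sum_congr rfl fun a _ => ?_
    have h3 : g x (L (f a)) (f a) = g x (L (∑ i, f a i • (ee i : E n))) (f a) := by
      rw [ee_sum_TR]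
    rw [h3, map_sum, map_sum, ContinuousLinearMap.sum_apply]
    refine Finset.sum_congr rfl fun i _ => ?_
    rw [map_smul, map_smul, ContinuousLinearMap.smul_apply, smul_eq_mul]
    ring

end Pool.Agent.Helper41.LH
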